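import Mathlib
import Pool.Agent.H773.IE.SR

set_option autoImplicit false

open MeasureTheory Set Filter Topology
open scoped ENNReal

namespace Pool.Agent.H671.IE

open Pool.Agent.H773.IE

/-- absolute continuity of finite products -/
theorem pi_ac : ∀ (n : ℕ) (μ ν : Fin n → Measure ℝ) [∀ i, SigmaFinite (μ i)]
    [∀ i, SigmaFinite (ν i)], (∀ i, μ i ≪ ν i) → Measure.pi μ ≪ Measure.pi ν := by
  intro n
  induction n with
  | zero =>
    intro μ ν _ _ _
    rw [Measure.pi_of_empty, Measure.pi_of_empty]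
  | succ n ih =>
    intro μ ν _ _ h
    have e1 := (measurePreserving_piFinSuccAbove μ 0).symm.map_eq
    have e2 := (measurePreserving_piFinSuccAbove ν 0).symm.map_eq
    rw [← e1, ← e2]
    refine Measure.AbsolutelyContinuous.map ?_ (MeasurableEquiv.measurable _)
    exact (h 0).prod (ih _ _ fun i => h _)

theorem ex_ae_pdf (r : ℝ) : (fun x => ENNReal.ofReal (if 0 < x then r * Real.exp (-(r * x)) else 0))
    =ᵐ[volume] ProbabilityTheory.exponentialPDF r := by
  have h0 : ∀ᵐ x : ℝ ∂volume, x ≠ 0 := by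
    rw [ae_iff]
    simp
  filter_upwards [h0] with x hx
  rw [ProbabilityTheory.exponentialPDF_eq]
  rcases lt_or_gt_of_ne hx with h | h
  · rw [if_neg (not_lt.mpr h.le), if_neg (not_le.mpr h)]
  · rw [if_pos h, if_pos h.le]

theorem ex_prob {r : ℝ} (hr : 0 < r) : IsProbabilityMeasure (ex r) := by
  constructor
  rw [ex, withDensity_apply _ MeasurableSet.univ, Measure.restrict_univ, lintegral_congr_ae (ex_ae_pdf r)]
  exact ProbabilityTheory.lintegral_exponentialPDF_eq_one hr

theorem ex_ac (r : ℝ) : ex r ≪ volume := withDensity_absolutelyContinuous _ _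

theorem meas_dens (r : ℝ) : Measurable fun x : ℝ =>
    ENNReal.ofReal (if 0 < x then r * Real.exp (-(r * x)) else 0) := by
  refine ENNReal.measurable_ofReal.comp ?_
  refine Measurable.ite measurableSet_Ioi ?_ measurable_const
  fun_prop

theorem ex_pos (r : ℝ) : ∀ᵐ x ∂(ex r), 0 < x := by
  rw [ex, ae_withDensity_iff (meas_dens r)]
  refine Eventually.of_forall fun x hx => ?_
  by_contra h
  rw [if_neg h, ENNReal.ofReal_zero] at hx
  exact hx rfl

theorem ac_ex {r : ℝ} (hr : 0 < r) : (volume.restrict (Ioi (0 : ℝ))) ≪ ex r := by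
  intro s hs
  have h1 : ∀ᵐ x ∂(ex r), x ∉ s := by
    rw [ae_iff]
    simpa using hs
  rw [ex, ae_withDensity_iff (meas_dens r)] at h1
  have h2 : ∀ᵐ x ∂(volume.restrict (Ioi (0 : ℝ))), x ∉ s := by
    rw [ae_restrict_iff' measurableSet_Ioi]
    filter_upwards [h1] with x hx hx0
    have hx1 : (0 : ℝ) < x := hx0
    apply hx
    rw [if_pos hx1]
    simp only [ne_eq, ENNReal.ofReal_eq_zero, not_le]
    positivity
  rw [ae_iff] at h2
  simpa using h2

theorem t_ex : S_ex := by
  intro n q hq
  have hp : ∀ i, IsProbabilityMeasure (ex (q i)) := fun i => ex_prob (hq i)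
  refine ⟨hp, ?_, ?_, ?_, ?_⟩
  · rw [EE]; infer_instance
  · rw [ae_all_iff]
    intro i
    have := (measurePreserving_eval (fun i => ex (q i)) i).quasiMeasurePreserving.ae (ex_pos (q i))
    exact this
  · rw [EE, volume_pi]
    exact pi_ac n _ _ fun i => ex_ac _
  · have hset : {lam : Fin n → ℝ | ∀ i, 0 < lam i} = Set.pi univ fun _ => Ioi (0 : ℝ) := by
      ext lam
      simp
    rw [hset, volume_pi, Measure.restrict_pi_pi, EE]
    exact pi_ac n _ _ fun i => ac_ex (hq i)

end Pool.Agent.H671.IE
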