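import Mathlib
import Pool.Agent.H773.IE.SR

set_option autoImplicit false

open MeasureTheory Set Filter Topology
open scoped ENNReal

namespace Pool.Agent.H671.IE

open Pool.Agent.H773.IE

section

variable {m : ℕ} {T : Sta m → (Fin (m + 1) → ℝ) → Prop}

theorem hk_of_T (k : ℕ) {s : Sta m} {q : Fin (m + 1) → ℝ} (h : T s q) : hk T k s q = 1 := by
  cases k with
  | zero => rw [hk, if_pos h]
  | succ k => rw [hk, if_pos h]

theorem hk_zero_not {s : Sta m} {q : Fin (m + 1) → ℝ} (h : ¬ T s q) : hk T 0 s q = 0 := by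
  rw [hk, if_neg h]

theorem hk_succ_not (k : ℕ) {s : Sta m} {q : Fin (m + 1) → ℝ} (h : ¬ T s q) :
    hk T (k + 1) s q = ENNReal.ofReal (pr s true q) * hk T k (nxt s true) (nxtQ s true q) +
      ENNReal.ofReal (pr s false q) * hk T k (nxt s false) (nxtQ s false q) := by
  rw [hk, if_neg h]

theorem hk_mono_succ (k : ℕ) : ∀ (s : Sta m) (q : Fin (m + 1) → ℝ), hk T k s q ≤ hk T (k + 1) s q := by
  induction k with
  | zero =>
    intro s q
    by_cases h : T s q
    · rw [hk_of_T _ h, hk_of_T _ h]
    · rw [hk_zero_not h]; exact zero_le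
  | succ k ih =>
    intro s q
    by_cases h : T s q
    · rw [hk_of_T _ h, hk_of_T _ h]
    · rw [hk_succ_not _ h, hk_succ_not _ h]
      exact add_le_add (mul_le_mul_right (ih _ _) _) (mul_le_mul_right (ih _ _) _)

theorem hk_mono (s : Sta m) (q : Fin (m + 1) → ℝ) : Monotone fun k => hk T k s q :=
  monotone_nat_of_le_succ fun k => hk_mono_succ k s q

theorem le_hP (k : ℕ) (s : Sta m) (q : Fin (m + 1) → ℝ) : hk T k s q ≤ hP T s q :=
  le_iSup (fun k => hk T k s q) k

theorem hP_of_T {s : Sta m} {q : Fin (m + 1) → ℝ} (h : T s q) : hP T s q = 1 := by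
  rw [hP]
  simp only [hk_of_T _ h, ciSup_const]

theorem hP_not {s : Sta m} {q : Fin (m + 1) → ℝ} (h : ¬ T s q) : hP T s q =
    ENNReal.ofReal (pr s true q) * hP T (nxt s true) (nxtQ s true q) +
      ENNReal.ofReal (pr s false q) * hP T (nxt s false) (nxtQ s false q) := by
  have h1 : hP T s q = ⨆ k, hk T (k + 1) s q := by
    apply le_antisymm
    · exact iSup_le fun k => (hk_mono_succ k s q).trans (le_iSup (fun k => hk T (k + 1) s q) k)
    · exact iSup_le fun k => le_hP _ s q
  rw [h1]
  simp only [hk_succ_not _ h]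
  rw [hP, hP, ENNReal.mul_iSup, ENNReal.mul_iSup]
  refine (ENNReal.iSup_add_iSup_of_monotone ?_ ?_).symm
  · intro a b hab
    exact mul_le_mul_right (hk_mono _ _ hab) _
  · intro a b hab
    exact mul_le_mul_right (hk_mono _ _ hab) _

end

theorem t_min : S_min := by
  intro m T D f h1 h2
  have key : ∀ k : ℕ, ∀ s q, D s q → hk T k s q ≤ f s q := by
    intro k
    induction k with
    | zero =>
      intro s q hD
      by_cases h : T s q
      · rw [hk_of_T _ h]; exact h1 s q hD h
      · rw [hk_zero_not h]; exact zero_le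
    | succ k ih =>
      intro s q hD
      by_cases h : T s q
      · rw [hk_of_T _ h]; exact h1 s q hD h
      · rw [hk_succ_not _ h]
        obtain ⟨h3, h4⟩ := h2 s q hD h
        exact (add_le_add (mul_le_mul_right (ih _ _ (h3 true)) _)
          (mul_le_mul_right (ih _ _ (h3 false)) _)).trans h4
  intro s q hD
  exact iSup_le fun k => key k s q hD

theorem ofReal_pr_add {m : ℕ} (s : Sta m) {q : Fin (m + 1) → ℝ} (h : ∀ i, 0 < q i) :
    ENNReal.ofReal (pr s true q) + ENNReal.ofReal (pr s false q) = 1 := by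
  rw [← ENNReal.ofReal_add (pr_nonneg s h _) (pr_nonneg s h _), pr_add s h, ENNReal.ofReal_one]

theorem hP_le_one (hirr : S_irr) {m : ℕ} (hm : 1 ≤ m) (T : Sta m → (Fin (m + 1) → ℝ) → Prop)
    (s : Sta m) (q : Fin (m + 1) → ℝ) (hs : IrrS s) (hq : ∀ i, 0 < q i) : hP T s q ≤ 1 := by
  refine t_min m T (fun s q => IrrS s ∧ ∀ i, 0 < q i) (fun _ _ => 1) (fun _ _ _ _ => le_rfl) ?_ s q
    ⟨hs, hq⟩
  intro s q hD _
  refine ⟨fun b => ⟨hirr m hm s hD.1 b, nxtQ_pos hD.2 b⟩, ?_⟩
  rw [mul_one, mul_one, ofReal_pr_add s hD.2]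

theorem t_comp (hirr : S_irr) : S_comp := by
  intro m hm T
  refine ⟨fun s q h => hP_of_T h, fun s q h => hP_not h, hP_le_one hirr hm T, ?_⟩
  · intro T' c hc
    by_cases hc1 : c ≤ 1
    swap
    · intro s q hs hq
      have h0 : hP T' s q ≤ 0 := by
        refine t_min m T' (fun s q => IrrS s ∧ ∀ i, 0 < q i) (fun _ _ => 0) ?_ ?_ s q ⟨hs, hq⟩
        · intro s q hD h
          exact absurd ((hc s q hD.1 hD.2 h).trans (hP_le_one hirr hm T s q hD.1 hD.2)) hc1
        · intro s q hD _
          refine ⟨fun b => ⟨hirr m hm s hD.1 b, nxtQ_pos hD.2 b⟩, ?_⟩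
          rw [mul_zero, mul_zero, add_zero]
      rw [nonpos_iff_eq_zero.mp h0, mul_zero]
      exact zero_le
    have key : ∀ k : ℕ, ∀ (s : Sta m) (q : Fin (m + 1) → ℝ), IrrS s → (∀ i, 0 < q i) →
        c * hk T' k s q ≤ hP T s q := by
      intro k
      induction k with
      | zero =>
        intro s q hs hq
        by_cases h : T' s q
        · rw [hk_of_T _ h, mul_one]; exact hc s q hs hq h
        · rw [hk_zero_not h, mul_zero]; exact zero_le
      | succ k ih =>
        intro s q hs hq
        by_cases h : T' s q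
        · rw [hk_of_T _ h, mul_one]; exact hc s q hs hq h
        · rw [hk_succ_not _ h]
          by_cases hT : T s q
          · rw [hP_of_T hT, ← hk_succ_not _ h]
            exact mul_le_one' hc1 ((le_hP _ _ _).trans (hP_le_one hirr hm T' s q hs hq))
          · rw [hP_not hT, mul_add, mul_left_comm, mul_left_comm c]
            exact add_le_add (mul_le_mul_right (ih _ _ (hirr m hm s hs true) (nxtQ_pos hq true)) _)
              (mul_le_mul_right (ih _ _ (hirr m hm s hs false) (nxtQ_pos hq false)) _)
    intro s q hs hq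
    rw [hP, ENNReal.mul_iSup]
    exact iSup_le fun k => key k s q hs hq

theorem t_mono (hirr : S_irr) : S_mono := by
  intro m hm T
  constructor
  · intro T' h s q hs hq
    have key : ∀ k : ℕ, ∀ (s : Sta m) (q : Fin (m + 1) → ℝ), IrrS s → (∀ i, 0 < q i) →
        hk T k s q ≤ hP T' s q := by
      intro k
      induction k with
      | zero =>
        intro s q hs hq
        by_cases h1 : T s q
        · rw [hk_of_T _ h1, hP_of_T (h s q hs hq h1)]
        · rw [hk_zero_not h1]; exact zero_le
      | succ k ih =>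
        intro s q hs hq
        by_cases h1 : T s q
        · rw [hk_of_T _ h1, hP_of_T (h s q hs hq h1)]
        · by_cases h2 : T' s q
          · rw [hP_of_T h2]
            exact (le_hP (k + 1) s q).trans (((t_comp hirr) m hm T).2.2.1 s q hs hq)
          · rw [hk_succ_not _ h1, hP_not h2]
            exact add_le_add (mul_le_mul_right (ih _ _ (hirr m hm s hs true) (nxtQ_pos hq true)) _)
              (mul_le_mul_right (ih _ _ (hirr m hm s hs false) (nxtQ_pos hq false)) _)
    exact iSup_le fun k => key k s q hs hq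
  · intro s q hs hq p
    induction p generalizing s q with
    | nil =>
      intro h
      have h' : T s q := h
      rw [hP_of_T h', prP, ENNReal.ofReal_one]
    | cons b p ih =>
      intro h
      have ih' := ih (nxt s b) (nxtQ s b q) (hirr m hm s hs b) (nxtQ_pos hq b) h
      have hb := pr_nonneg s hq b
      rw [prP, ENNReal.ofReal_mul hb]
      by_cases hT : T s q
      · rw [hP_of_T hT]
        have h1 : ENNReal.ofReal (pr s b q) ≤ 1 := by
          rw [← ofReal_pr_add s hq]
          cases b
          · exact le_add_self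
          · exact le_self_add
        have h2 : ENNReal.ofReal (prP p (nxt s b) (nxtQ s b q)) ≤ 1 :=
          ih'.trans (((t_comp hirr) m hm T).2.2.1 _ _ (hirr m hm s hs b) (nxtQ_pos hq b))
        exact mul_le_one' h1 h2
      · rw [hP_not hT]
        cases b
        · exact (mul_le_mul_right ih' _).trans le_add_self
        · exact (mul_le_mul_right ih' _).trans le_self_add

end Pool.Agent.H671.IE

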